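import Pool.Agent.H30.T1.S4
import Pool.Agent.H2.HYP.KEY
import Pool.Agent.H69.HYP.CHP
import Pool.Agent.H25.HYP.DIST
import Pool.Agent.H6.HYP.ZBD

/-!
# T1, row KEYK: the pair of matrices of a bad class
-/

set_option autoImplicit false

namespace Pool.T1

open Polynomial Matrix Pool.HYP Pool.TOW Pool.AVS IsDedekindDomain

namespace H96K

section Lat

variable {R : Type} [CommRing R] {K : Type} [Field K] [Algebra R K]

theorem pow_memO {O : ValuationSubring K} {π : K} (hπ : π ∈ O) (n : ℕ) : π ^ n ∈ O :=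
  O.toSubring.pow_mem hπ n

theorem zpow_memO {O : ValuationSubring K} {π : K} (hπ : π ∈ O) {n : ℤ} (hn : 0 ≤ n) :
    π ^ n ∈ O := by
  obtain ⟨k, rfl⟩ := Int.eq_ofNat_of_zero_le hn
  rw [zpow_natCast]
  exact pow_memO hπ k

theorem Lm_mono {O : ValuationSubring K} {π : K} (h0 : π ≠ 0) (hπ : π ∈ O) {m m' : ℤ}
    (hm : m ≤ m') {a : R} (ha : a ∈ Lm R O π m) : a ∈ Lm R O π m' := by
  have h1 : algebraMap R K a * π ^ m' = (algebraMap R K a * π ^ m) * π ^ (m' - m) := by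
    rw [mul_assoc, ← zpow_add₀ h0]
    congr 2
    ring
  show algebraMap R K a * π ^ m' ∈ O
  rw [h1]
  exact O.mul_mem _ _ ha (zpow_memO hπ (by omega))

theorem MIn_mul {O : ValuationSubring K} {n : ℕ} {A B : Matrix (Fin n) (Fin n) K}
    (hA : MIn (O : Set K) A) (hB : MIn (O : Set K) B) : MIn (O : Set K) (A * B) := by
  intro i j
  rw [Matrix.mul_apply]
  exact O.toSubring.sum_mem fun k _ => O.mul_mem _ _ (hA i k) (hB k j)

theorem MIn_tr {O : ValuationSubring K} {n : ℕ} {A : Matrix (Fin n) (Fin n) K}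
    (hA : MIn (O : Set K) A) : MIn (O : Set K) Aᵀ := fun i j => hA j i

theorem MIn_det {O : ValuationSubring K} {n : ℕ} {A : Matrix (Fin n) (Fin n) K}
    (hA : MIn (O : Set K) A) : A.det ∈ O := by
  rw [Matrix.det_apply]
  refine O.toSubring.sum_mem fun σ _ => ?_
  rw [Units.smul_def]
  exact O.toSubring.zsmul_mem (O.toSubring.prod_mem fun i _ => hA (σ i) i) _

theorem prod_zpow {ι : Type} (π : K) (h0 : π ≠ 0) (d : ι → ℤ) (s : Finset ι) :
    ∏ i ∈ s, π ^ d i = π ^ ∑ i ∈ s, d i := by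
  classical
  induction s using Finset.induction_on with
  | empty => simp
  | insert a s ha ih => rw [Finset.prod_insert ha, Finset.sum_insert ha, ih, zpow_add₀ h0]

theorem gr_symm {n k : ℕ} (f h : K[X]) : (gr k n f h)ᵀ = gr k n f h := by
  refine Matrix.ext fun i j => ?_
  show tau f (X ^ ((j : ℕ) + (i : ℕ) + k) * h) = tau f (X ^ ((i : ℕ) + (j : ℕ) + k) * h)
  rw [Nat.add_comm (j : ℕ)]

theorem entry {n : ℕ} (E A : Matrix (Fin n) (Fin n) K) (i j : Fin n) :
    (Eᵀ * A * E) i j = (fun a => E a i) ⬝ᵥ (A *ᵥ fun b => E b j) := by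
  rw [Matrix.mul_assoc, Matrix.mul_apply]
  rfl

end Lat

end H96K

open H96K

/-- **KEYK.** -/
theorem keyk (hLATT : LATTKStmt) (hINF : INFKStmt) (hIRR : IRRKStmt) (hND : NDKStmt) :
    KEYKStmt := by
  intro R _ _ K _ _ _ O π hGR hMink g hg
  obtain ⟨C0, hC0⟩ := hMink (2 * g + 1)
  obtain ⟨c, hc⟩ := hND R K O π hGR
  refine ⟨max (max C0 0) ((c * qq O ^ (2 * C0).toNat : ℕ) : ℤ),
    le_trans (le_max_right _ _) (le_max_left _ _), ?_⟩
  intro D h hOk hT f hf hbad
  have hπ0 := hGR.pi_ne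
  have hπO := hGR.pi_mem
  have hinj : Function.Injective (algebraMap R K) := IsFractionRing.injective R K
  have hm : f.Monic := hf.1.1
  have hdeg : f.natDegree = 2 * g + 1 := hf.1.2.1
  obtain ⟨α, hcop, hN, hns, hUS, hTR⟩ := hbad
  obtain ⟨Λ, hΛE, hΛd, hΛ1, hΛT⟩ := hLATT R K (2 * g + 1) f α D.T hm hdeg hcop hUS hTR
  obtain ⟨gi, hgi, hgiG, hgiS⟩ := hINF R K O π hGR g D h hOk.2.2.2.1 hOk.2.2.2.2.1 hOk.2.2.2.2.2
    f hf α hcop hN
  obtain ⟨E, d, hE, hEΛ, hd, hdC, hEO⟩ := hC0 Λ (gr 0 (2 * g + 1) (fk K f) α) gi (gr_symm _ _)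
    hΛE hΛd hgi hgiG
  -- the matrices
  have hGex : ∀ i j : Fin (2 * g + 1), ∃ a : R,
      algebraMap R K a = (Eᵀ * gr 0 (2 * g + 1) (fk K f) α * E) i j := fun i j => by
    rw [entry]
    exact (hΛd _).1 (hEΛ j) _ (hEΛ i)
  have hSex : ∀ i j : Fin (2 * g + 1), ∃ a : R,
      algebraMap R K a = (Eᵀ * gr 1 (2 * g + 1) (fk K f) α * E) i j := fun i j => by
    rw [entry]
    exact hΛ1 _ (hEΛ i) _ (hEΛ j)
  choose G hG using hGex
  choose S hS using hSex
  obtain ⟨G', hG'⟩ : ∃ G' : Matrix (Fin (2 * g + 1)) (Fin (2 * g + 1)) R, G' = Matrix.of G :=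
    ⟨_, rfl⟩
  obtain ⟨S', hS'⟩ : ∃ S' : Matrix (Fin (2 * g + 1)) (Fin (2 * g + 1)) R, S' = Matrix.of S :=
    ⟨_, rfl⟩
  have hMG : Eᵀ * gr 0 (2 * g + 1) (fk K f) α * E = G'.map (algebraMap R K) := by
    refine Matrix.ext fun i j => ?_
    rw [hG', Matrix.map_apply]
    exact (hG i j).symm
  have hMS : Eᵀ * gr 1 (2 * g + 1) (fk K f) α * E = S'.map (algebraMap R K) := by
    refine Matrix.ext fun i j => ?_
    rw [hS', Matrix.map_apply]
    exact (hS i j).symm
  have hGt : G'ᵀ = G' := by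
    have h1 : (G'ᵀ).map (algebraMap R K) = G'.map (algebraMap R K) := by
      rw [Matrix.transpose_map, ← hMG, Matrix.transpose_mul, Matrix.transpose_mul,
        Matrix.transpose_transpose, gr_symm, Matrix.mul_assoc]
    refine Matrix.ext fun i j => hinj ?_
    exact congrFun (congrFun h1 i) j
  have hSt : S'ᵀ = S' := by
    have h1 : (S'ᵀ).map (algebraMap R K) = S'.map (algebraMap R K) := by
      rw [Matrix.transpose_map, ← hMS, Matrix.transpose_mul, Matrix.transpose_mul,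
        Matrix.transpose_transpose, gr_symm, Matrix.mul_assoc]
    refine Matrix.ext fun i j => hinj ?_
    exact congrFun (congrFun h1 i) j
  have hdet : ∀ A : Matrix (Fin (2 * g + 1)) (Fin (2 * g + 1)) R,
      (A.map (algebraMap R K)).det = algebraMap R K A.det := fun A => by
    rw [RingHom.map_det]
    rfl
  -- at infinity
  obtain ⟨Dg, hDg⟩ : ∃ Dg : Matrix (Fin (2 * g + 1)) (Fin (2 * g + 1)) K,
    Dg = Matrix.diagonal (fun i => π ^ d i) := ⟨_, rfl⟩
  have hDt : Dgᵀ = Dg := by rw [hDg, Matrix.diagonal_transpose]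
  obtain ⟨κ, hκ⟩ : ∃ κ, κ = gi⁻¹ * E * Dg := ⟨_, rfl⟩
  have hκO : MIn (O : Set K) κ := fun i j => by
    rw [hκ, hDg, Matrix.mul_diagonal]
    exact hEO i j
  have hEκ : E * Dg = gi * κ := by
    rw [hκ, Matrix.mul_assoc, ← Matrix.mul_assoc gi,
      Matrix.mul_nonsing_inv _ (isUnit_iff_ne_zero.2 hgi), Matrix.one_mul]
  have hsand : ∀ A : Matrix (Fin (2 * g + 1)) (Fin (2 * g + 1)) K,
      Dg * (Eᵀ * A * E) * Dg = κᵀ * (giᵀ * A * gi) * κ := fun A => by
    have h1 : Dg * (Eᵀ * A * E) * Dg = (E * Dg)ᵀ * A * (E * Dg) := by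
      rw [Matrix.transpose_mul, hDt]
      simp only [Matrix.mul_assoc]
    rw [h1, hEκ, Matrix.transpose_mul]
    simp only [Matrix.mul_assoc]
  have hDD : ∀ (A : Matrix (Fin (2 * g + 1)) (Fin (2 * g + 1)) K) (i j),
      (Dg * A * Dg) i j = A i j * π ^ (d i + d j) := fun A i j => by
    rw [hDg, Matrix.mul_diagonal, Matrix.diagonal_mul, zpow_add₀ hπ0]
    ring
  have hGO : ∀ i j, G' i j ∈ Lm R O π (d i + d j) := fun i j => by
    show algebraMap R K (G' i j) * π ^ (d i + d j) ∈ O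
    have h1 : algebraMap R K (G' i j) = (Eᵀ * gr 0 (2 * g + 1) (fk K f) α * E) i j := by
      rw [hMG]
      rfl
    rw [h1, ← hDD, hsand]
    exact MIn_mul (MIn_mul (MIn_tr hκO) hgiG.1) hκO i j
  have hSO : ∀ i j, S' i j ∈ Lm R O π (d i + d j + h) := fun i j => by
    show algebraMap R K (S' i j) * π ^ (d i + d j + h) ∈ O
    have h1 : algebraMap R K (S' i j) = (Eᵀ * gr 1 (2 * g + 1) (fk K f) α * E) i j := by
      rw [hMS]
      rfl
    have h2 : algebraMap R K (S' i j) * π ^ (d i + d j + h) =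
        (κᵀ * (π ^ h • (giᵀ * gr 1 (2 * g + 1) (fk K f) α * gi)) * κ) i j := by
      rw [zpow_add₀ hπ0, ← mul_assoc, h1, ← hDD, hsand, Matrix.mul_smul, Matrix.smul_mul,
        Matrix.smul_apply, smul_eq_mul, zpow_natCast]
      ring
    rw [h2]
    exact MIn_mul (MIn_mul (MIn_tr hκO) hgiS) hκO i j
  -- the determinant
  have hGam : (gr 0 (2 * g + 1) (fk K f) α).det ≠ 0 := fun h0 => hgiG.2.1 (by
    rw [Matrix.det_mul, Matrix.det_mul, h0, mul_zero, zero_mul])
  have hKd : (G'.map (algebraMap R K)).det ≠ 0 := by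
    rw [← hMG, Matrix.det_mul, Matrix.det_mul, Matrix.det_transpose]
    exact mul_ne_zero (mul_ne_zero hE hGam) hE
  have hGd : G'.det ≠ 0 := fun h0 => hKd (by rw [hdet, h0, map_zero])
  have hdetL : G'.det ∈ Lm R O π (2 * ∑ i, d i) := by
    show algebraMap R K G'.det * π ^ (2 * ∑ i, d i) ∈ O
    have h1 : algebraMap R K G'.det * π ^ (2 * ∑ i, d i) =
        (κᵀ * (giᵀ * gr 0 (2 * g + 1) (fk K f) α * gi) * κ).det := by
      rw [← hsand, Matrix.det_mul, Matrix.det_mul, hMG, hdet, hDg, Matrix.det_diagonal,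
        prod_zpow π hπ0, two_mul (∑ i, d i), zpow_add₀ hπ0]
      ring
    rw [h1]
    exact MIn_det (MIn_mul (MIn_mul (MIn_tr hκO) hgiG.1) hκO)
  have hdetT : ∀ P ∈ D.T, G'.det ∉ P.asIdeal := fun P hP hmem => by
    have h1 := hc (2 * C0).toNat G'.det P hGd (Lm_mono hπ0 hπO (by omega) hdetL) hmem
    have h2 := hT P hP
    have h3 : ((c * qq O ^ (2 * C0).toNat : ℕ) : ℤ) ≤
      max (max C0 0) ((c * qq O ^ (2 * C0).toNat : ℕ) : ℤ) := le_max_right _ _
    have h4 : (Nat.card (R ⧸ P.asIdeal) : ℤ) ≤ ((c * qq O ^ (2 * C0).toNat : ℕ) : ℤ) := by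
      exact_mod_cast h1
    omega
  have hfm : (fk K f).Monic := hm.map _
  have hfd : (fk K f).natDegree = 2 * g + 1 := by rw [hm.natDegree_map, hdeg]
  have hrep : Rep (2 * g + 1) (fk K f) α (G'.map (algebraMap R K)) (S'.map (algebraMap R K)) := by
    rw [← hMG, ← hMS]
    exact Pool.HYP.H2.rep_comb _ _ _
  refine ⟨d, G', S', ⟨hd, fun k => ?_, ?_⟩, hGt, hSt, hGO, hSO, hGd, ?_, fun P hP => ?_,
    fun hz => ?_⟩
  · by_contra hneg
    push Not at hneg
    refine hGd (zbd R (2 * g + 1) (k : ℕ) G' k.isLt fun i j hi hj => ?_)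
    have hi' : i ≤ k := hi
    have hj' : j ≤ k.rev := by
      show (j : ℕ) ≤ (k.rev : ℕ)
      rw [Fin.val_rev]
      omega
    have h1 := hd hi'
    have h2 := hd hj'
    exact hGR.small _ (Lm_mono hπ0 hπO (by omega) (hGO i j))
  · have : C0 ≤ max (max C0 0) ((c * qq O ^ (2 * C0).toNat : ℕ) : ℤ) :=
      le_trans (le_max_left _ _) (le_max_left _ _)
    omega
  · have h3 := Pool.HYP.chp K (2 * g + 1) (fk K f) α (G'.map (algebraMap R K))
      (S'.map (algebraMap R K)) hfm hfd hrep hKd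
    have h4 : pen (G'.map (algebraMap R K)) (S'.map (algebraMap R K)) =
        (Polynomial.mapRingHom (algebraMap R K)).mapMatrix (pen G' S') := by
      refine Matrix.ext fun i j => ?_
      show X * C ((algebraMap R K) (G' i j)) - C ((algebraMap R K) (S' i j))
        = Polynomial.map (algebraMap R K) (X * C (G' i j) - C (S' i j))
      rw [Polynomial.map_sub, Polynomial.map_mul, Polynomial.map_X, Polynomial.map_C,
        Polynomial.map_C]
    rw [h4, ← RingHom.map_det, hdet] at h3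
    refine Polynomial.map_injective _ hinj ?_
    rw [Polynomial.map_mul, Polynomial.map_C]
    exact h3
  · exact hΛT P hP E G' S' hEΛ (hdetT P hP) hMG hMS
  · refine hns (Pool.HYP.dist K g (fk K f) α (G'.map (algebraMap R K)) (S'.map (algebraMap R K))
      hg hfm hfd (hIRR R K O π hGR g D h hg hOk f hf).1 hN hKd hrep fun i j hi hj => ?_)
    obtain ⟨h3, h4⟩ := hz i j hi hj
    constructor
    · show algebraMap R K (G' i j) = 0
      rw [h3, map_zero]
    · show algebraMap R K (S' i j) = 0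
      rw [h4, map_zero]

end Pool.T1
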