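import Pool.Agent.H94.T1.S6
import Pool.Agent.H85.T1.FAMK

/-!
# T1, row PRNK: the number of the large primes which contain `a`
-/

set_option autoImplicit false

namespace Pool.T1

open Polynomial Matrix Pool.HYP Pool.TOW Pool.AVS IsDedekindDomain

/-- **PRNK.** -/
theorem prnk : PRNKStmt := by
  intro R _ _ K _ _ _ O π hR hD a B m ha haB
  have := hR.res
  obtain ⟨n, -, -, hn, hL⟩ := hD a ha
  have hnB : n ≤ B := by
    have := (hL B).1 haB
    exact_mod_cast this
  have hQ : 1 < qq O := Finite.one_lt_card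
  have hfin : {P : HeightOneSpectrum R | a ∈ P.asIdeal ∧ qq O ^ m < Nm P}.Finite := by
    refine (Ideal.finite_factors (I := Ideal.span {a}) ?_).subset fun P hP => ?_
    · rw [Ne, Ideal.zero_eq_bot, Ideal.span_singleton_eq_bot]
      exact ha
    · show P.asIdeal ∣ Ideal.span {a}
      rw [Ideal.dvd_span_singleton]
      exact hP.1
  refine ⟨hfin, ?_⟩
  rw [Set.ncard_eq_toFinset_card _ hfin]
  have hF : ∀ P ∈ hfin.toFinset, a ∈ P.asIdeal ∧ qq O ^ m < Nm P := fun P hP =>
    (Set.Finite.mem_toFinset hfin).1 hP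
  have h1 : Ideal.span {a} ≤ ∏ P ∈ hfin.toFinset, P.asIdeal := by
    rw [Ideal.span_singleton_le_iff_mem, FAMKaux.memProd]
    exact fun P hP => (hF P hP).1
  have hfa : Finite (R ⧸ Ideal.span {a}) := hR.fin _ (by
    rw [Ne, Ideal.span_singleton_eq_bot]
    exact ha)
  have h2 : Nat.card (R ⧸ ∏ P ∈ hfin.toFinset, P.asIdeal) ≤ Nat.card (R ⧸ Ideal.span {a}) :=
    Nat.card_le_card_of_surjective _ (Ideal.Quotient.factor_surjective h1)
  rw [FAMKaux.cardProd, hn] at h2
  have h3 : (qq O ^ m) ^ hfin.toFinset.card ≤ ∏ P ∈ hfin.toFinset, Nm P := by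
    rw [← Finset.prod_const]
    exact Finset.prod_le_prod' fun P hP => (hF P hP).2.le
  have h4 : qq O ^ (m * hfin.toFinset.card) ≤ qq O ^ n := by
    rw [pow_mul]
    exact h3.trans h2
  have h5 := (Nat.pow_le_pow_iff_right hQ).1 h4
  rw [Nat.mul_comm]
  exact h5.trans hnB

end Pool.T1
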