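import Pool.Agent.H14.T1.S3

/-!
# T1, row SEMB: the elements regular at all primes above `p`
-/

set_option autoImplicit false

namespace Pool.T1

open Polynomial Matrix Pool.HYP Pool.TOW Pool.AVS IsDedekindDomain

namespace H96B

theorem mem_IP {F : Type} [Field F] {p a b : F[X]} (hb : ¬ p ∣ b) {x : RatFunc F}
    (h : rf b * x = rf a) : x ∈ IP p := by
  have hb0 : rf b ≠ 0 := by
    intro h0
    apply hb
    have : b = 0 := RatFunc.algebraMap_injective F (by rw [map_zero]; exact h0)
    rw [this]
    exact dvd_zero p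
  have hx : x = rf a / rf b := by
    rw [eq_div_iff hb0, mul_comm]
    exact h
  intro hp
  apply hb
  rw [hx] at hp
  exact hp.trans (RatFunc.denom_div_dvd a b)

/-- The ideal of the `r` with `r a` in `R`. -/
def cond (F : Type) [Field F] (K : Type) [Field K] [Algebra (RatFunc F) K] (a : K) :
    Ideal (RR F K) where
  carrier := {r | (r : K) * a ∈ RS F K}
  zero_mem' := by
    show ((0 : RR F K) : K) * a ∈ RS F K
    rw [ZeroMemClass.coe_zero, zero_mul]
    exact (RS F K).zero_mem
  add_mem' := by
    intro x y hx hy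
    show ((x + y : RR F K) : K) * a ∈ RS F K
    rw [AddMemClass.coe_add, add_mul]
    exact (RS F K).add_mem hx hy
  smul_mem' := by
    intro c x hx
    show ((c * x : RR F K) : K) * a ∈ RS F K
    rw [MulMemClass.coe_mul, mul_assoc]
    exact (RS F K).mul_mem c.2 hx

end H96B

open H96B

/-- **SEMB.** -/
theorem semb : SEMBStmt := by
  intro F _ K _ _ _ _ p hpm hp a ha
  have h1 : ∃ h : F[X], ¬ p ∣ h ∧ algebraMap (RatFunc F) K (rf h) * a ∈ RS F K := by
    by_contra hno
    push Not at hno
    have := finite_RR F K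
    have hint : Algebra.IsIntegral F[X] (RR F K) := Algebra.IsIntegral.of_finite _ _
    have hpp : (Ideal.span {p}).IsPrime :=
      (Ideal.span_singleton_prime hp.ne_zero).2 hp.prime
    obtain ⟨Q, hQ1, hQ2, hQ3⟩ := Ideal.exists_ideal_over_prime_of_isIntegral (S := RR F K)
      (Ideal.span {p}) (cond F K a) (by
        intro h hh
        rw [Ideal.mem_span_singleton]
        by_contra hph
        exact hno h hph hh)
    have hpQ : xR F K p ∈ Q := by
      have h2 : p ∈ Ideal.comap (algebraMap F[X] (RR F K)) Q := by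
        rw [hQ3]
        exact Ideal.mem_span_singleton_self p
      exact h2
    have hp0 : xR F K p ≠ 0 := by
      intro h0
      apply hp.ne_zero
      have h2 := xR_coe F K p
      rw [h0, ZeroMemClass.coe_zero] at h2
      have h3 : algebraMap F[X] (RatFunc F) p = 0 :=
        (algebraMap (RatFunc F) K).injective (by rw [map_zero]; exact h2.symm)
      exact RatFunc.algebraMap_injective F (by rw [map_zero]; exact h3)
    have hQ0 : Q ≠ ⊥ := by
      rintro rfl
      exact hp0 (Ideal.mem_bot.1 hpQ)
    obtain ⟨m, hm, r, hr⟩ := ha ⟨Q, hQ2, hQ0⟩ hpQ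
    apply hm
    apply hQ1
    show (m : K) * a ∈ RS F K
    have h3 : (m : K) * a = (r : K) := hr
    rw [h3]
    exact r.2
  refine ⟨h1, ?_⟩
  obtain ⟨h, hph, hh⟩ := h1
  let := algX F K
  have : IsScalarTower F[X] (RatFunc F) K := IsScalarTower.of_algebraMap_eq fun x => rfl
  have hint : IsIntegral F[X] (algebraMap (RatFunc F) K (rf h) * a) := hh
  constructor
  · obtain ⟨y, hy⟩ := (IsIntegrallyClosed.isIntegral_iff (K := RatFunc F)).1
      (Algebra.isIntegral_trace (L := RatFunc F) hint)
    refine mem_IP hph (a := y) ?_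
    have h4 : Algebra.trace (RatFunc F) K (algebraMap (RatFunc F) K (rf h) * a) =
        rf h * Algebra.trace (RatFunc F) K a := by
      rw [← Algebra.smul_def, map_smul, smul_eq_mul]
    rw [← h4]
    exact hy.symm
  · obtain ⟨y, hy⟩ := (IsIntegrallyClosed.isIntegral_iff (K := RatFunc F)).1
      (Algebra.isIntegral_norm (RatFunc F) hint)
    have hph' : ¬ p ∣ h ^ Module.finrank (RatFunc F) K := fun h5 => hph (hp.prime.dvd_of_dvd_pow h5)
    refine mem_IP hph' (a := y) ?_
    have h4 : Algebra.norm (RatFunc F) (algebraMap (RatFunc F) K (rf h) * a) =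
        rf (h ^ Module.finrank (RatFunc F) K) * Algebra.norm (RatFunc F) a := by
      rw [map_mul, Algebra.norm_algebraMap]
      congr 1
      exact (map_pow (algebraMap F[X] (RatFunc F)) h _).symm
    rw [← h4]
    exact hy.symm

end Pool.T1
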