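import Pool.Agent.H58.T1.S1
import Pool.Agent.H85.T1.FAMK

/-!
# T1, row STP: one step
-/

set_option autoImplicit false

namespace Pool.T1

open Polynomial Matrix Pool.HYP Pool.TOW Pool.AVS IsDedekindDomain

namespace H96S

variable {R : Type} [CommRing R] [IsDomain R] {K : Type} [Field K] [Algebra R K]
  {O : ValuationSubring K} {π : K}

theorem Lm_succ (hR : GR R O π) {m : ℤ} {a : R} (ha : a ∈ Lm R O π (m - 1)) :
    a ∈ Lm R O π m := by
  have h1 : algebraMap R K a * π ^ m = (algebraMap R K a * π ^ (m - 1)) * π := by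
    rw [mul_assoc, ← zpow_add_one₀ hR.pi_ne]
    congr 2
    ring
  show algebraMap R K a * π ^ m ∈ O
  rw [h1]
  exact O.mul_mem _ _ ha hR.pi_mem

/-- `I ∩ L(m)` as a group. -/
def GI (O : ValuationSubring K) (π : K) (I : Ideal R) (m : ℤ) : AddSubgroup R where
  carrier := LI R O π I m
  zero_mem' := by
    refine ⟨?_, I.zero_mem⟩
    show algebraMap R K 0 * π ^ m ∈ O
    rw [map_zero, zero_mul]
    exact O.zero_mem
  add_mem' := by
    rintro a b ⟨ha, ha'⟩ ⟨hb, hb'⟩
    refine ⟨?_, I.add_mem ha' hb'⟩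
    show algebraMap R K (a + b) * π ^ m ∈ O
    rw [map_add, add_mul]
    exact O.add_mem _ _ ha hb
  neg_mem' := by
    rintro a ⟨ha, ha'⟩
    refine ⟨?_, I.neg_mem ha'⟩
    show algebraMap R K (-a) * π ^ m ∈ O
    rw [map_neg, neg_mul]
    exact O.neg_mem _ ha

theorem card_GI (I : Ideal R) (m : ℤ) : Nat.card (GI O π I m) = (LI R O π I m).ncard := by
  rw [← Nat.card_coe_set_eq]
  rfl

/-- The leading coefficient. -/
noncomputable def lead (O : ValuationSubring K) (π : K) (I : Ideal R) (m : ℤ) :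
    GI O π I m →+ IsLocalRing.ResidueField O where
  toFun a := IsLocalRing.residue O ⟨algebraMap R K (a : R) * π ^ m, a.2.1⟩
  map_zero' := by
    have h1 : (⟨algebraMap R K ((0 : GI O π I m) : R) * π ^ m, (0 : GI O π I m).2.1⟩ : O) = 0 := by
      apply Subtype.ext
      show algebraMap R K 0 * π ^ m = 0
      rw [map_zero, zero_mul]
    rw [h1, map_zero]
  map_add' a b := by
    have h1 : (⟨algebraMap R K ((a + b : GI O π I m) : R) * π ^ m, (a + b).2.1⟩ : O) =
        ⟨algebraMap R K (a : R) * π ^ m, a.2.1⟩ + ⟨algebraMap R K (b : R) * π ^ m, b.2.1⟩ := by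
      apply Subtype.ext
      show algebraMap R K ((a : R) + (b : R)) * π ^ m =
        algebraMap R K (a : R) * π ^ m + algebraMap R K (b : R) * π ^ m
      rw [map_add, add_mul]
    rw [h1, map_add]

theorem lead_eq (hR : GR R O π) (I : Ideal R) (m : ℤ) (a : GI O π I m) (x : O) :
    lead O π I m a = IsLocalRing.residue O x ↔ (algebraMap R K (a : R) * π ^ m - x) / π ∈ O :=
  FAMKaux.resEq hR ⟨algebraMap R K (a : R) * π ^ m, a.2.1⟩ x

theorem mem_ker (hR : GR R O π) (I : Ideal R) (m : ℤ) (a : GI O π I m) :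
    a ∈ (lead O π I m).ker ↔ (a : R) ∈ LI R O π I (m - 1) := by
  rw [AddMonoidHom.mem_ker, ← map_zero (IsLocalRing.residue O), lead_eq hR]
  have h1 : (algebraMap R K (a : R) * π ^ m - ((0 : O) : K)) / π =
      algebraMap R K (a : R) * π ^ (m - 1) := by
    rw [zpow_sub_one₀ hR.pi_ne]
    show (algebraMap R K (a : R) * π ^ m - 0) / π = _
    rw [sub_zero, div_eq_mul_inv, mul_assoc]
  rw [h1]
  exact ⟨fun h => ⟨h, a.2.2⟩, fun h => h.1⟩

theorem card_ker (hR : GR R O π) (I : Ideal R) (m : ℤ) :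
    Nat.card (lead O π I m).ker = (LI R O π I (m - 1)).ncard := by
  rw [← Nat.card_coe_set_eq]
  refine Nat.card_congr
    { toFun := fun a => ⟨((a : GI O π I m) : R), (mem_ker hR I m a).1 a.2⟩
      invFun := fun a => ⟨⟨a, Lm_succ hR a.2.1, a.2.2⟩, (mem_ker hR I m _).2 a.2⟩
      left_inv := fun a => rfl
      right_inv := fun a => rfl }

theorem card_step (hR : GR R O π) (I : Ideal R) (m : ℤ) :
    (LI R O π I (m - 1)).ncard * Nat.card (lead O π I m).range = (LI R O π I m).ncard := by
  rw [← card_ker hR, ← AddSubgroup.index_ker, ← card_GI]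
  exact AddSubgroup.card_mul_index _

theorem full_iff (hR : GR R O π) (I : Ideal R) (m : ℤ) :
    Full R O π I m ↔ (lead O π I m).range = ⊤ := by
  constructor
  · intro h
    rw [eq_top_iff]
    intro y _
    obtain ⟨x, rfl⟩ := IsLocalRing.residue_surjective y
    obtain ⟨a, ha, hax⟩ := h x x.2
    exact ⟨⟨a, ha⟩, (lead_eq hR I m ⟨a, ha⟩ x).2 hax⟩
  · intro h x hx
    have h1 : IsLocalRing.residue O ⟨x, hx⟩ ∈ (lead O π I m).range := by
      rw [h]
      trivial
    obtain ⟨a, ha⟩ := h1
    exact ⟨a, a.2, (lead_eq hR I m a ⟨x, hx⟩).1 ha⟩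

theorem pos_of_fin (I : Ideal R) {m : ℤ} (h : (LI R O π I m).Finite) :
    0 < (LI R O π I m).ncard := by
  rw [Set.ncard_pos h]
  exact ⟨0, (GI O π I m).zero_mem⟩

theorem fin_step (hR : GR R O π) (I : Ideal R) (m : ℤ) (h : (LI R O π I (m - 1)).Finite) :
    (LI R O π I m).Finite := by
  have := hR.res
  refine Set.finite_of_ncard_pos ?_
  rw [← card_step hR]
  exact Nat.mul_pos (pos_of_fin I h) Nat.card_pos

theorem fin_nat (hR : GR R O π) (I : Ideal R) (n : ℕ) : (LI R O π I ((n : ℤ) - 1)).Finite := by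
  induction n with
  | zero =>
    refine (Set.finite_singleton (0 : R)).subset fun a ha => ?_
    have h1 : a ∈ Lm R O π (-1) := by simpa using ha.1
    exact hR.small a h1
  | succ n ih =>
    refine fin_step hR I _ ?_
    push_cast
    rwa [add_sub_cancel_right]

theorem Lm_le (hR : GR R O π) {m : ℤ} (n : ℕ) {a : R} (ha : a ∈ Lm R O π m) :
    a ∈ Lm R O π (m + n) := by
  induction n with
  | zero => simpa using ha
  | succ n ih =>
    refine Lm_succ hR ?_
    have h1 : m + ((n + 1 : ℕ) : ℤ) - 1 = m + n := by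
      push_cast
      ring
    rwa [h1]

theorem fin_LI (hR : GR R O π) (I : Ideal R) (m : ℤ) : (LI R O π I m).Finite := by
  refine (fin_nat hR I (m + 1).toNat).subset fun a ha => ⟨?_, ha.2⟩
  have h1 : m ≤ ((m + 1).toNat : ℤ) - 1 := by omega
  obtain ⟨k, hk⟩ := Int.le.dest h1
  rw [← hk]
  exact Lm_le hR k ha.1

end H96S

open H96S

/-- **STP.** -/
theorem stp : STPStmt := by
  intro R _ _ K _ _ _ O π hR I m
  have := hR.res
  have h1 := card_step hR I m
  have h2 := AddSubgroup.card_mul_index (lead O π I m).range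
  have h3 : 0 < (LI R O π I (m - 1)).ncard := pos_of_fin I (fin_LI hR I (m - 1))
  have h4 : Nat.card (lead O π I m).range ≤ qq O := Nat.card_le_card_of_injective (fun x : (lead O π I m).range => (x : IsLocalRing.ResidueField O))
    Subtype.val_injective
  refine ⟨?_, ?_, ?_⟩
  · rw [← h1, Nat.mul_comm (qq O)]
    exact Nat.mul_le_mul_left _ h4
  · rw [full_iff hR, ← h1, Nat.mul_comm (qq O)]
    constructor
    · intro h
      rw [h]
      congr 1
      exact Nat.card_congr AddSubgroup.topEquiv.toEquiv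
    · intro h
      exact AddSubgroup.eq_top_of_card_eq _ (Nat.eq_of_mul_eq_mul_left h3 h)
  · rw [full_iff hR]
    intro h
    have h5 : (lead O π I m).range.index ≠ 1 := fun h6 => h (AddSubgroup.index_eq_one.1 h6)
    have h6 : (lead O π I m).range.index ≠ 0 := AddSubgroup.index_ne_zero_of_finite
    have h7 : 2 * Nat.card (lead O π I m).range ≤ qq O := by
      have h8 : Nat.card (lead O π I m).range * (lead O π I m).range.index = qq O := h2
      rw [← h8, Nat.mul_comm]
      exact Nat.mul_le_mul_left _ (by omega)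
    rw [← h1]
    nlinarith

end Pool.T1
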