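import Pool.Agent.H29.T1.ZS

/-!
# T1, row ZIRV: irreducible modulo `P`
-/

set_option autoImplicit false

namespace Pool.T1

open Polynomial Matrix Pool.HYP Pool.TOW Pool.AVS IsDedekindDomain

/-- **ZIRV.** -/
theorem zirv (hV : ZVALStmt) : ZIRVStmt := by
  intro R _ _ K _ _ _ P f _
  obtain ⟨-, hV2, -⟩ := hV R K
  obtain ⟨-, hint, hset⟩ := hV2 P
  have hmem : ∀ x : K, x ∈ vP K P ↔ ∃ m : R, m ∉ P.asIdeal ∧ ∃ a : R,
      algebraMap R K m * x = algebraMap R K a := fun x => by
    rw [← SetLike.mem_coe, hset]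
    rfl
  have hinj : Function.Injective (algebraMap R K) := IsFractionRing.injective R K
  have hne : ∀ a : R, a ∉ P.asIdeal → algebraMap R K a ≠ 0 := fun a ha h0 => by
    have : a = 0 := hinj (by rw [h0, map_zero])
    exact ha (this ▸ P.asIdeal.zero_mem)
  obtain ⟨j, hj⟩ : ∃ j : R →+* vP K P, ∀ a, ((j a : vP K P) : K) = algebraMap R K a :=
    ⟨(algebraMap R K).codRestrict (vP K P) hint, fun a => rfl⟩
  obtain ⟨r, hr⟩ : ∃ r : R →+* IsLocalRing.ResidueField (vP K P),
      r = (IsLocalRing.residue (vP K P)).comp j := ⟨_, rfl⟩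
  have hker : ∀ a : R, r a = 0 ↔ a ∈ P.asIdeal := by
    intro a
    rw [hr, RingHom.comp_apply, IsLocalRing.residue_eq_zero_iff, IsLocalRing.mem_maximalIdeal,
      mem_nonunits_iff]
    constructor
    · intro h
      by_contra ha
      apply h
      have h1 : (algebraMap R K a)⁻¹ ∈ vP K P :=
        (hmem _).2 ⟨a, ha, 1, by rw [mul_inv_cancel₀ (hne a ha), map_one]⟩
      refine IsUnit.of_mul_eq_one ⟨_, h1⟩ (Subtype.ext ?_)
      show ((j a : vP K P) : K) * (algebraMap R K a)⁻¹ = 1
      rw [hj, mul_inv_cancel₀ (hne a ha)]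
    · intro ha hu
      obtain ⟨v, hv⟩ := isUnit_iff_exists_inv.1 hu
      have h1 : algebraMap R K a * (v : K) = 1 := by
        rw [← hj]
        exact congrArg Subtype.val hv
      obtain ⟨m, hm, b, hb⟩ := (hmem (v : K)).1 v.2
      apply hm
      have h2 : m = a * b := hinj (by
        rw [map_mul, ← hb]
        calc algebraMap R K m = algebraMap R K m * (algebraMap R K a * (v : K)) := by
              rw [h1, mul_one]
          _ = algebraMap R K a * (algebraMap R K m * (v : K)) := by ring)
      rw [h2]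
      exact P.asIdeal.mul_mem_right _ ha
  have hsurj : Function.Surjective r := by
    intro y
    obtain ⟨x, rfl⟩ := IsLocalRing.residue_surjective y
    obtain ⟨m, hm, a, ha⟩ := (hmem (x : K)).1 x.2
    have hmax : P.asIdeal.IsMaximal := P.isMaximal
    obtain ⟨n, hn⟩ := Ideal.IsMaximal.exists_inv hmax hm
    obtain ⟨i, hi, hni⟩ := hn
    have h1 : r n * r m = 1 := by
      have h2 : r (n * m) + r i = 1 := by rw [← map_add, hni, map_one]
      rw [(hker i).2 hi, add_zero, map_mul] at h2
      exact h2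
    have h3 : r m * IsLocalRing.residue (vP K P) x = r a := by
      rw [hr, RingHom.comp_apply, RingHom.comp_apply, ← map_mul]
      congr 1
      apply Subtype.ext
      show ((j m : vP K P) : K) * (x : K) = ((j a : vP K P) : K)
      rw [hj, hj, ha]
    refine ⟨n * a, ?_⟩
    rw [map_mul, ← h3, ← mul_assoc, h1, one_mul]
  have hbij : Function.Bijective (Ideal.Quotient.lift P.asIdeal r fun a ha => (hker a).2 ha) := by
    constructor
    · rw [injective_iff_map_eq_zero]
      intro x hx
      obtain ⟨a, rfl⟩ := Ideal.Quotient.mk_surjective x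
      rw [Ideal.Quotient.lift_mk] at hx
      exact Ideal.Quotient.eq_zero_iff_mem.2 ((hker a).1 hx)
    · intro y
      obtain ⟨a, rfl⟩ := hsurj y
      exact ⟨Ideal.Quotient.mk _ a, Ideal.Quotient.lift_mk _ _ _⟩
  have h1 : Irreducible (md P.asIdeal f) ↔ Irreducible (f.map r) := by
    rw [← MulEquiv.irreducible_iff (Polynomial.mapEquiv (RingEquiv.ofBijective _ hbij)).toMulEquiv]
    have h2 : (Polynomial.mapEquiv (RingEquiv.ofBijective _ hbij)).toMulEquiv (md P.asIdeal f) =
        f.map r := by
      show Polynomial.map _ (f.map (Ideal.Quotient.mk P.asIdeal)) = f.map r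
      rw [Polynomial.map_map]
      congr 1
    rw [h2]
  rw [h1]
  have h4 : (f.map j).map (algebraMap (vP K P) K) = fk K f := by
    rw [Polynomial.map_map]
    congr 1
    exact RingHom.ext hj
  constructor
  · rintro ⟨f₀, hf₀, hirr⟩
    have h5 : f₀ = f.map j := by
      refine Polynomial.map_injective (algebraMap (vP K P) K) Subtype.val_injective ?_
      rw [hf₀, h4]
    rw [h5, Polynomial.map_map, ← hr] at hirr
    exact hirr
  · intro hirr
    refine ⟨f.map j, h4, ?_⟩
    rw [Polynomial.map_map, ← hr]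
    exact hirr

end Pool.T1
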